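import Pool.Agent.Helper996.LinC.DegS

/-!
Holomorphic maps `SG_k → SG_n` (`k > 4`) whose differential is nowhere injective are constant.

* `LinS.cpoly k w` is the polynomial `X^k + ∑_{i<k-1} w_i X^i` (no term of degree `k-1`);
* `LinC.SG k` is the set of the `w : Fin (k-1) → ℂ` for which its discriminant is `1`: the variety
  `SG_k` in its coordinates `z_2,...,z_k`;
* `LinC.HolSS f`: the map `f : SG k → SG n` is holomorphic;
* `LinC.NotImm f z`: the differential of `f` at `z` (on the tangent space of `SG k`) is not injective.
-/

set_option autoImplicit false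

open Polynomial Set Filter Topology

namespace Pool.Agent.Results.MP_eb1491_ag.NonMaximalRank

open LinS LinC

/-- a holomorphic map `SG_k → SG_n` that is nowhere immersive is constant -/
theorem result (k n : ℕ) (hk : 4 < k) (hn : 3 ≤ n) (f : SG k → SG n) (hf : HolSS f)
    (hdeg : ∀ z, NotImm f z) : ∀ z z' : SG k, f z = f z' := by
  obtain ⟨m, rfl⟩ : ∃ m, k = m + 1 := ⟨k - 1, by omega⟩
  intro z z'
  exact deg_const (by omega) hn f hf hdeg z z'

end Pool.Agent.Results.MP_eb1491_ag.NonMaximalRank
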